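import Pool.Agent.Y503.CR.Map

/-!
# Meromorphically extendable CR maps into spheres of every finite differentiability class

On one fixed generic real-analytic submanifold `M ⊂ ℂ⁴` of codimension two, minimal at the origin,
there are, for every `k ≥ 1` and every `N ≥ 2 k + 9`, CR maps of class `C^k` into the unit sphere of
`ℂᴺ` which extend meromorphically but not holomorphically near the origin.
-/

set_option autoImplicit false

open scoped Topology ContDiff
open Set

namespace Pool.Agent.Results.MP_c4ba3a_an.EveryFiniteClass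

open Pool.Agent.Results.MP_c4ba3a_an.SphereCR Pool.Agent.Y503.CR

/-- `f` is of class `C^k` on the submanifold `M`: for every smooth local parametrisation `γ` of `M`
(on an open set `V` of some `ℝᵐ`) the map `f ∘ γ` is of class `C^k` on `V`. -/
def OfClass {n N : ℕ} (k : ℕ) (M : Set (Fin n → ℂ)) (f : (Fin n → ℂ) → EuclideanSpace ℂ (Fin N)) :
    Prop :=
  ∀ (m : ℕ) (V : Set (EuclideanSpace ℝ (Fin m))) (γ : EuclideanSpace ℝ (Fin m) → (Fin n → ℂ)),
    IsLocalParam M V γ → ContDiffOn ℝ k (fun y => f (γ y)) V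

/-- There is a generic real-analytic submanifold `M = {ρ = 0}` of `ℂ⁴` of real codimension two, with
`0 ∈ M`, minimal at `0`, such that for every `k ≥ 1` and every `N ≥ 2 k + 9` there is a CR map `f` of
class `C^k` of `M` into the unit sphere of `ℂᴺ` which extends meromorphically near `0` but does not
extend holomorphically near `0`. -/
theorem result :
    ∃ ρ : (Fin 4 → ℂ) → (Fin 2 → ℝ), IsGenericDefining ρ ∧ ρ 0 = 0 ∧ IsMinimalAt ρ 0 ∧
      ∀ k N : ℕ, 1 ≤ k → 2 * k + 9 ≤ N → ∃ f : (Fin 4 → ℂ) → EuclideanSpace ℂ (Fin N),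
        OfClass k {x | ρ x = 0} f ∧ ContinuousOn f {x | ρ x = 0} ∧
        (∀ i, IsCRFunction {x | ρ x = 0} (fun x => f x i)) ∧ (∀ x, ρ x = 0 → ‖f x‖ = 1) ∧
        ExtendsMeromorphically {x | ρ x = 0} f 0 ∧ ¬ ExtendsHolomorphically {x | ρ x = 0} f 0 := by
  refine ⟨rho, rho_generic, rho_zero_zero, rho_minimal, fun k N hk hN => ?_⟩
  obtain ⟨m, rfl⟩ : ∃ m, N = m + 6 := ⟨N - 6, by omega⟩
  refine ⟨fm m, fun d V γ hγ => fm_class k m (by omega) d V γ hγ, ?_,
    fun i => fm_CR m (by omega) i, fun x hx => fm_norm m (by omega) hx, fm_meromorphic m,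
    fm_not_holomorphic m⟩
  have h : ContinuousOn (cm m) MM :=
    continuousOn_pi.mpr fun i => (fm_CR m (by omega) i).1
  exact ((EuclideanSpace.equiv (Fin (m + 6)) ℂ).symm.continuous).comp_continuousOn h

end Pool.Agent.Results.MP_c4ba3a_an.EveryFiniteClass
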